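import Pool.Agent.Lib.MP_144d21_co.PSI.Iface

/-!
# MP_144d21_co, project XU3, part PSI, module LOCAL: divisibility of the lowest coefficient by a
power of `X - p`
-/

set_option autoImplicit false

namespace Pool.Agent.Xu.H70

open Finset Polynomial

theorem locl (h1 : SubcS) (h2 : CubeS) (h3 : LexS) : LocalS := by
  intro F _ V n j γ B p I m P a hm hT hL
  classical
  obtain ⟨M, mM⟩ : ∃ M : Matrix (Fin n) (Fin n) F,
      ∀ k i, M k i = if i ∈ I then m i k else if k = i then 1 else 0 := ⟨fun k i => _, fun k i => rfl⟩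
  have hc := fun (γ : V → F[X]) (δ : Fin n → F[X]) (B : Matrix V (Fin n) F)
      (N : Matrix (Fin n) (Fin n) F) (P : MvPolynomial V F[X]) =>
    (h1 F[X] V (Fin n) (Fin n)).1 γ (B.map C) δ (N.map C) P
  have hone : (1 : Matrix (Fin n) (Fin n) F[X]) = (1 : Matrix (Fin n) (Fin n) F).map C := by
    rw [Matrix.map_one _ C_0 C_1]
  have hz : ∀ (γ : V → F[X]) (B : Matrix V (Fin n) F),
      (fun v => γ v + ∑ k, (B.map C) v k * (0 : Fin n → F[X]) k) = γ := by
    intro γ B
    funext v
    simp only [Pi.zero_apply, mul_zero, sum_const_zero, add_zero]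
  have hBM : (B * M).map (C : F →+* F[X]) = B.map C * M.map C := Matrix.map_mul
  obtain ⟨P', hP'⟩ : ∃ P' : MvPolynomial (Fin n) F[X], P' = sbt 0 (M.map C) (sbt γ (B.map C) P) :=
    ⟨_, rfl⟩
  have e0 : P' = sbt γ ((B * M).map C) P := by
    rw [hP', hc, hz, hBM]
  have hO : ∀ T ⊆ I, Ord j (sbt (fun k => if k ∈ T then (X - C p) else 0)
      (1 : Matrix (Fin n) (Fin n) F[X]) P') := by
    intro T hTI
    have e2 : ∀ v k, ((B * M).map C) v k * (if k ∈ T then (X - C p) else (0 : F[X])) =
        if k ∈ T then (X - C p) * C (∑ l, B v l * m k l) else 0 := by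
      intro v k
      by_cases hk : k ∈ T
      · rw [if_pos hk, if_pos hk, mul_comm, Matrix.map_apply, Matrix.mul_apply]
        have : ∑ l, B v l * M l k = ∑ l, B v l * m k l := by
          refine sum_congr rfl fun l _ => ?_
          rw [mM, if_pos (hTI hk)]
        rw [this]
      · rw [if_neg hk, if_neg hk, mul_zero]
    have e3 : ∀ v, (∑ k, ((B * M).map C) v k * (if k ∈ T then (X - C p) else (0 : F[X]))) =
        (X - C p) * C (∑ i ∈ T, ∑ k, B v k * m i k) := by
      intro v
      rw [sum_congr rfl fun k _ => e2 v k, ← sum_filter, map_sum, mul_sum]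
      exact sum_congr (by ext; simp) fun _ _ => rfl
    have e4 : (fun v => γ v + ∑ k, ((B * M).map C) v k *
        (fun k => if k ∈ T then (X - C p) else (0 : F[X])) k) =
        fun v => γ v + (X - C p) * C (∑ i ∈ T, ∑ k, B v k * m i k) := by
      funext v
      exact congrArg (γ v + ·) (e3 v)
    have e1 : sbt (fun k => if k ∈ T then (X - C p) else 0) (1 : Matrix (Fin n) (Fin n) F[X]) P' =
        sbt 0 (M.map C) (sbt (fun v => γ v + (X - C p) * C (∑ i ∈ T, ∑ k, B v k * m i k))
          (B.map C) P) := by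
      rw [e0, hone, hc, hc, e4, hz, ← hone, Matrix.mul_one, hBM]
    rw [e1]
    exact (h1 F[X] (Fin n) (Fin n) (Fin n)).2.2 j _ _ (hT T hTI)
  have hdvd := h2 F[X] n j (X - C p) I P' (X_sub_C_ne_zero p) hO a hL.1
  have hT0 : Ord j (sbt γ (B.map C) P) := by
    have h := hT ∅ (empty_subset _)
    have e5 : (fun v => γ v + (X - C p) * C (∑ i ∈ (∅ : Finset (Fin n)), ∑ k, B v k * m i k)) =
        γ := by
      funext v
      rw [sum_empty, C_0, mul_zero, add_zero]
    rw [e5] at h
    exact h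
  have hlow : ∀ k i, k < i → (M.map (C : F →+* F[X])) k i = 0 := by
    intro k i hki
    rw [Matrix.map_apply, mM]
    by_cases hi : i ∈ I
    · rw [if_pos hi, (hm i hi).1 k hki, C_0]
    · rw [if_neg hi, if_neg hki.ne, C_0]
  have hlex := h3 F[X] n j (M.map C) (sbt γ (B.map C) P) a hlow hT0 hL
  rw [← hP'] at hlex
  rw [hlex] at hdvd
  have hu : IsUnit (∏ k, (M.map (C : F →+* F[X])) k k ^ a k) := by
    refine (IsUnit.prod_univ_iff).2 fun k => IsUnit.pow _ ?_
    rw [Matrix.map_apply]
    refine isUnit_C.2 ?_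
    rw [mM]
    by_cases hk : k ∈ I
    · rw [if_pos hk]
      exact isUnit_iff_ne_zero.2 (hm k hk).2
    · rw [if_neg hk, if_pos rfl]
      exact isUnit_one
  exact (hu.dvd_mul_left).1 hdvd

end Pool.Agent.Xu.H70
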