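import Pool.Agent.Lib.MP_144d21_co.PSI.Iface

/-!
# MP_144d21_co, project XU3, part PSI, module VTX: a vertex with exactly one frozen component
-/

set_option autoImplicit false

namespace Pool.Agent.Xu.H70

open Finset Polynomial

theorem vtx : VtxS := by
  intro F _ K V _ _ _ w S Z h3 h0 hne hconn hZ hR
  classical
  set Zp : Finset K := univ.filter fun D => ∀ x ∈ Rel w Z, x D = 0 with hZp
  have mZ : ∀ D, D ∈ Zp ↔ ∀ x ∈ Rel w Z, x D = 0 := fun D => by
    rw [hZp, mem_filter]
    exact and_iff_right (mem_univ D)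
  set A : Finset V := S.filter fun v => inc w v ⊆ Zp with hA
  have mA : ∀ v, v ∈ A ↔ v ∈ S ∧ inc w v ⊆ Zp := fun v => by rw [hA, mem_filter]
  obtain ⟨v0, hv0, hv0Z⟩ := hZ
  have hAne : A.Nonempty := by
    refine ⟨v0, (mA v0).2 ⟨hv0, fun D hD => (mZ D).2 fun x hx => hx.1 D (hv0Z hD)⟩⟩
  have hAS : A ≠ S := by
    intro hE
    obtain ⟨x, hx, hx0⟩ := (Submodule.ne_bot_iff _).1 hR
    have : ∃ D, x D ≠ 0 := by
      by_contra hh
      push Not at hh
      exact hx0 (funext hh)
    obtain ⟨D, hD⟩ := this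
    obtain ⟨v, hv⟩ := hne D
    have hvS : v ∈ S := by
      by_contra hvS
      have := mem_inc.2 hv
      rw [h0 v hvS] at this
      simp at this
    rw [← hE] at hvS
    exact hD ((mZ D).1 (((mA v).1 hvS).2 (mem_inc.2 hv)) x hx)
  obtain ⟨u, hu, v, hvS, hvA, D0, hD0u, hD0v⟩ := hconn A (filter_subset _ _) hAne hAS
  have hD0 : ∀ x ∈ Rel w Z, x D0 = 0 := (mZ D0).1 (((mA u).1 hu).2 (mem_inc.2 hD0u))
  have hcard : ((inc w v).erase D0).card = 2 := by
    rw [card_erase_of_mem (mem_inc.2 hD0v), h3 v hvS]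
  obtain ⟨D1, D2, h12, hE⟩ := card_eq_two.1 hcard
  have m1 : D1 ∈ (inc w v).erase D0 := by rw [hE]; simp
  have m2 : D2 ∈ (inc w v).erase D0 := by rw [hE]; simp
  have h01 : D0 ≠ D1 := fun h => (mem_erase.1 m1).1 h.symm
  have h02 : D0 ≠ D2 := fun h => (mem_erase.1 m2).1 h.symm
  have hinc : ∀ D, D ∈ inc w v ↔ D = D0 ∨ D = D1 ∨ D = D2 := by
    intro D
    constructor
    · intro hD
      by_cases h : D = D0
      · exact Or.inl h
      · have : D ∈ (inc w v).erase D0 := mem_erase.2 ⟨h, hD⟩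
        rw [hE] at this
        simpa using Or.inr (by simpa using this)
    · rintro (rfl | rfl | rfl)
      · exact mem_inc.2 hD0v
      · exact (mem_erase.1 m1).2
      · exact (mem_erase.1 m2).2
  have hw1 : w D1 v ≠ 0 := mem_inc.1 (mem_erase.1 m1).2
  have hw2 : w D2 v ≠ 0 := mem_inc.1 (mem_erase.1 m2).2
  have hrel : ∀ x ∈ Rel w Z, x D1 * w D1 v + x D2 * w D2 v = 0 := by
    intro x hx
    have e1 := hx.2 v
    have e2 : ∑ D, x D * w D v = ∑ D ∈ ({D0, D1, D2} : Finset K), x D * w D v := by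
      refine (sum_subset (subset_univ _) fun D _ hD => ?_).symm
      have : D ∉ inc w v := by
        rw [hinc D]
        simpa using hD
      have : w D v = 0 := by
        by_contra h
        exact this (mem_inc.2 h)
      rw [this, mul_zero]
    rw [e2, sum_insert (by simp [h01, h02]), sum_insert (by simp [h12]), sum_singleton, hD0 x hx,
      zero_mul, zero_add] at e1
    exact e1
  have hex : ∃ x ∈ Rel w Z, x D1 ≠ 0 := by
    by_contra hh
    push Not at hh
    refine hvA ((mA v).2 ⟨hvS, fun D hD => (mZ D).2 ?_⟩)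
    rcases (hinc D).1 hD with rfl | rfl | rfl
    · exact hD0
    · exact hh
    · intro x hx
      have := hrel x hx
      rw [hh x hx, zero_mul, zero_add] at this
      exact (mul_eq_zero.1 this).resolve_right hw2
  refine ⟨v, hvS, D0, D1, D2, h01, h02, h12, hinc, hD0, hex, ?_⟩
  obtain ⟨x, hx, hx1⟩ := hex
  refine ⟨x, hx, fun h => ?_⟩
  have := hrel x hx
  rw [h, zero_mul, add_zero] at this
  exact (mul_ne_zero hx1 hw1) this

end Pool.Agent.Xu.H70
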